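import Mathlib
import Pool.Prelude.Def_F_b1b78ff3
import Pool.Agent.H418.FA.SetF
import Pool.Agent.H418.FA.Real

/-!
# The compositum of all extensions with alternating or solvable Galois group

Let `K` be a number field, or any Hilbertian field of characteristic zero, and let `F` be the
compositum (in an algebraic closure) of ALL finite Galois extensions of `K` whose Galois group is
an alternating group `A_n` with `n ≥ 5`.  Then every finite group is a Galois group over `F`, every
finite embedding problem over `F` (split or not) has a proper solution, and, if `K` is countable,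
the absolute Galois group of `F` is the free profinite group of countable rank.

The same holds for all fields `L` between `F` and the compositum of `F` with finitely many *good*
Galois extensions `E` of `K`, finite or infinite: `E` is good if only finitely many alternating
groups `A_d`, `d ≥ 5`, are Galois groups of subextensions of `E / K` (for example the maximal
abelian and the maximal prosolvable extension of `K`), or if the absolute Galois group of `E` is not
projective (for example if `E` has a real embedding).  So it holds for the compositum of all finite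
Galois extensions of `K` whose group is alternating or solvable, and it holds for `F ℚ^ab` if
`K = ℚ`; compare the conjecture of Shafarevich that the absolute Galois group of `ℚ^ab` is free.

Moreover the same holds if `F` is the compositum of any set `S` of finite Galois extensions of `K`
with nonabelian simple Galois groups such that `S` contains all `A_n`-extensions of `K` with
`n ∈ D`, `n ≥ 5`, where `D` is a set of integers such that every positive integer has a positive
multiple `a` for which `D` contains infinitely many odd multiples of `a` (for example the set of all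
multiples of an integer, or the set of all products `i! p` with `p` prime).  For example one can
take for `S` the set of all finite Galois extensions of `K` with nonabelian simple Galois group.
-/

set_option autoImplicit false

open Topology Filter Nfff32c05

namespace Pool.Agent.Results.MP_dadaab_nt.FreeOverAlternating

/-- `K` is Hilbertian: every monic irreducible `f ∈ K[T][X]` which is separable over `K(T)` has an
irreducible specialization `f(a, X)` with `g(a) ≠ 0`, for every nonzero polynomial `g`. -/
def IsHilbertian (K : Type) [Field K] : Prop :=
  ∀ f : Polynomial (Polynomial K), f.Monic → Irreducible f →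
    (f.map (algebraMap (Polynomial K) (FractionRing (Polynomial K)))).Separable →
    ∀ g : Polynomial K, g ≠ 0 →
      ∃ a : K, g.eval a ≠ 0 ∧ Irreducible (f.map (Polynomial.evalRingHom a))

/-- `M / K` is a finite Galois extension whose Galois group is nonabelian and simple. -/
def IsSimpleExt (K M : Type) [Field K] [Field M] [Algebra K M] : Prop :=
  FiniteDimensional K M ∧ IsGalois K M ∧ IsSimpleGroup (M ≃ₐ[K] M) ∧
    ∃ a b : M ≃ₐ[K] M, a * b ≠ b * a

/-- `M / K` is a finite Galois extension with Galois group isomorphic to the alternating group
`A_n`. -/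
def IsAltExt (n : ℕ) (K M : Type) [Field K] [Field M] [Algebra K M] : Prop :=
  FiniteDimensional K M ∧ IsGalois K M ∧ Nonempty ((M ≃ₐ[K] M) ≃* alternatingGroup (Fin n))

/-- Every positive integer `m` has a positive multiple `a` such that `D` contains infinitely many
odd multiples `a (2 k + 1)` of `a`. -/
def IsRich (D : Set ℕ) : Prop :=
  ∀ m : ℕ, 0 < m → ∃ a : ℕ, 0 < a ∧ m ∣ a ∧ {k : ℕ | a * (2 * k + 1) ∈ D}.Infinite

/-- Every finite embedding problem over `F`, given by a finite Galois extension `L / F` and a
surjective homomorphism `α : B → Gal(L / F)` of finite groups, has a proper solution: there are a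
finite Galois extension `M / F` which contains `L` and an isomorphism `γ : Gal(M / F) → B` such that
`α ∘ γ` is the restriction to `L`. -/
def SolvesAllEP (F : Type) [Field F] : Prop :=
  ∀ (L : Type) [Field L] [Algebra F L] [FiniteDimensional F L] [IsGalois F L]
    (B : Type) [Group B] [Finite B] (α : B →* (L ≃ₐ[F] L)), Function.Surjective α →
    ∃ (M : Type) (_ : Field M) (_ : Algebra F M) (_ : Algebra L M) (_ : IsScalarTower F L M)
      (_ : FiniteDimensional F M) (_ : IsGalois F M) (γ : (M ≃ₐ[F] M) ≃* B),
      ∀ (σ : M ≃ₐ[F] M) (x : L), σ (algebraMap L M x) = algebraMap L M (α (γ σ) x)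

/-- The topological group `G` is the free profinite group of countable rank: it is profinite and
there is a sequence `x i` in `G` which converges to `1` such that for every profinite group `A` and
every sequence `a i` in `A` which converges to `1` there is exactly one continuous homomorphism
`φ : G → A` with `φ (x i) = a i` for all `i`. -/
def IsFreeProfinite (G : Type) [Group G] [TopologicalSpace G] : Prop :=
  (IsTopologicalGroup G ∧ CompactSpace G ∧ T2Space G ∧ TotallyDisconnectedSpace G) ∧
  ∃ x : ℕ → G, Tendsto x cofinite (𝓝 1) ∧
    ∀ (A : Type) [Group A] [TopologicalSpace A] [IsTopologicalGroup A] [CompactSpace A]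
      [T2Space A] [TotallyDisconnectedSpace A] (a : ℕ → A), Tendsto a cofinite (𝓝 1) →
      ∃! φ : G →ₜ* A, ∀ i, φ (x i) = a i

/-- The profinite group `G` is projective: for all finite groups `Γ` and `B`, every homomorphism
`q : G → Γ` with open kernel and every epimorphism `α : B → Γ` there is a homomorphism `ψ : G → B`
with open kernel such that `α ∘ ψ = q`. -/
def IsProjective (G : Type) [Group G] [TopologicalSpace G] : Prop :=
  ∀ (Γ B : Type) [Group Γ] [Finite Γ] [Group B] [Finite B] (q : G →* Γ),
    IsOpen (q.ker : Set G) → ∀ α : B →* Γ, Function.Surjective α →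
    ∃ ψ : G →* B, IsOpen (ψ.ker : Set G) ∧ ∀ x, α (ψ x) = q x

section

variable {K : Type} [Field K]

/-- Only finitely many groups `A_d` with `d ≥ 5` are Galois groups of Galois extensions of `K` which
are contained in `E`. -/
def FewAlternating (E : IntermediateField K (AlgebraicClosure K)) : Prop :=
  {d : ℕ | 5 ≤ d ∧ ∃ M : IntermediateField K (AlgebraicClosure K), M ≤ E ∧ IsAltExt d K M}.Finite

/-- All finite Galois extensions of `K` contained in `E` have solvable Galois groups. -/
def IsProsolvable (E : IntermediateField K (AlgebraicClosure K)) : Prop :=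
  ∀ M : IntermediateField K (AlgebraicClosure K), M ≤ E → FiniteDimensional K M →
    IsGalois K M → Group.IsSolvable (M ≃ₐ[K] M)

/-- `E / K` is a Galois extension, finite or infinite, with few alternating subextensions or with a
nonprojective absolute Galois group. -/
def IsGood (E : IntermediateField K (AlgebraicClosure K)) : Prop :=
  IsGalois K E ∧ (FewAlternating E ∨ ¬ IsProjective (AlgebraicClosure K ≃ₐ[E] AlgebraicClosure K))

/-- Prosolvable extensions are good. -/
theorem good_of_prosolvable {E : IntermediateField K (AlgebraicClosure K)} (hg : IsGalois K E)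
    (hE : IsProsolvable E) : IsGood E := by
  have h8 : {d : ℕ | 5 ≤ d ∧ ∃ M : IntermediateField K (AlgebraicClosure K), M ≤ E ∧
      IsAltExt d K M} = ∅ := by
    rw [Set.eq_empty_iff_forall_notMem]
    rintro d ⟨hd, M, hM, h9, h10, ⟨e⟩⟩
    have h1 := hE M hM h9 h10
    have h2 : Group.IsSolvable (alternatingGroup (Fin d)) :=
      Group.isSolvable_of_surjective (f := e.toMonoidHom) e.surjective
    have h3 := Pool.Agent.H418.FA.altSimple d hd
    obtain ⟨a, b, hab⟩ := Pool.Agent.H418.FA.altNoncomm d hd
    exact hab (IsSimpleGroup.comm_iff_isSolvable.2 h2 a b)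
  refine ⟨hg, Or.inl ?_⟩
  change Set.Finite {d : ℕ | 5 ≤ d ∧ ∃ M : IntermediateField K (AlgebraicClosure K), M ≤ E ∧
      IsAltExt d K M}
  rw [h8]
  exact Set.finite_empty

/-- Galois extensions with a real embedding are good. -/
theorem good_of_real [CharZero K] {E : IntermediateField K (AlgebraicClosure K)}
    (hg : IsGalois K E) (hE : Nonempty (E →+* ℝ)) : IsGood E :=
  ⟨hg, Or.inr (Pool.Agent.H418.FA.not_weakAll_of_real hE)⟩

end

/-- All fields between the compositum `F` of the fields in `S` and the composita of `F` with finitely
many good extensions of `K` have free absolute Galois groups. -/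
theorem result (K : Type) [Field K] [CharZero K] (hK : NumberField K ∨ IsHilbertian K)
    (D : Set ℕ) (hD : IsRich D) (S : Set (IntermediateField K (AlgebraicClosure K)))
    (hS : ∀ M ∈ S, IsSimpleExt K M)
    (hDS : ∀ (M : IntermediateField K (AlgebraicClosure K)) (n : ℕ), n ∈ D → 5 ≤ n →
      IsAltExt n K M → M ∈ S)
    (F : IntermediateField K (AlgebraicClosure K)) (hF : F = sSup S) :
    (∀ E : IntermediateField K (AlgebraicClosure K), IsGalois K E →
      (IsProsolvable E ∨ Nonempty (E →+* ℝ)) → IsGood E) ∧
    ∀ (T : Finset (IntermediateField K (AlgebraicClosure K)))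
      (L : IntermediateField K (AlgebraicClosure K)),
      (∀ E ∈ T, IsGood E) → F ≤ L → L ≤ F ⊔ T.sup id →
      (∀ (G : Type) [Group G] [Finite G], IsRealizable L G) ∧ SolvesAllEP L ∧
      (Countable K → IsFreeProfinite (AlgebraicClosure K ≃ₐ[L] AlgebraicClosure K)) := by
  subst hF
  have hK' : Pool.Agent.H391R2.T4.HilbField K := by
    rcases hK with hK | hK
    · exact Pool.Agent.H391R2.T4.hilb_numberField K
    · exact hK
  refine ⟨fun E hE h => ?_, fun T L hT hFL hL => ?_⟩
  · rcases h with h | h
    · exact good_of_prosolvable hE h
    · exact good_of_real hE h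
  have h1 : Pool.Agent.H418.FA.SolvesAll (AlgebraicClosure K ≃ₐ[L] AlgebraicClosure K) :=
    Pool.Agent.H418.FA.set_field K (AlgebraicClosure K) hK' S (fun M hM => ⟨(hS M hM).1,
      (hS M hM).2.1, (hS M hM).2.2.1, (hS M hM).2.2.2⟩) D hD
      (fun M n hn hn5 h => hDS M n hn hn5 ⟨h.fin, h.gal, h.iso⟩) T
      (fun E hE => by
        obtain ⟨hg, h8 | h8⟩ := hT E hE
        · refine ⟨hg, Or.inl (Set.Finite.subset h8 ?_)⟩
          rintro d ⟨hd, M, hM, h9⟩
          exact ⟨hd, M, hM, h9.fin, h9.gal, h9.iso⟩
        · exact ⟨hg, Or.inr h8⟩) L hFL hL
  have h2 : Pool.Agent.H418.FA.SolvesAllEP L := Pool.Agent.H418.FA.solvesAllEP_of h1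
  refine ⟨fun G _ _ => h2.realizable G, h2, fun hc => ?_⟩
  have hcΩ : Countable (AlgebraicClosure K) := by
    have h3 := Algebra.IsAlgebraic.cardinalMk_le_max K (AlgebraicClosure K)
    rw [← Cardinal.mk_le_aleph0_iff]
    exact h3.trans (max_le (Cardinal.mk_le_aleph0_iff.2 hc) le_rfl)
  obtain ⟨x, hx1, hx2⟩ := Pool.Agent.H418.FA.free_of_solvesAll _ h1
  exact ⟨⟨inferInstance, inferInstance, inferInstance, inferInstance⟩, x, hx1, hx2⟩

end Pool.Agent.Results.MP_dadaab_nt.FreeOverAlternating
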