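import Mathlib
import Pool.Prelude.Def_F_b1b78ff3
import Pool.Agent.H418.FA.Cmp2
import Pool.Agent.H418.FA.Real

/-!
# Free absolute Galois groups of all composita with a small Galois extension

Let `K` be a number field, or any countable Hilbertian field of characteristic zero (for example
`K = ℚ`).  There is one Galois extension `F / K`, with group `∏ A_(n i)`, a product of simple
alternating groups of different degrees `n 0 < n 1 < ...` which is topologically generated by two
elements, with the following property.

Call a Galois extension `E / K`, finite or infinite, *good* if one of the following holds: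

* only finitely many alternating groups `A_d`, `d ≥ 5`, are Galois groups of subextensions of
  `E / K`; for example `E` can be the maximal abelian or the maximal prosolvable extension of `K`
  or any Galois extension of `K` inside these;
* the absolute Galois group of `E` is not projective; for example `E` can be any Galois extension
  of `K` with a real embedding, such as the field of all totally real algebraic numbers.

Let `E` be a compositum of finitely many good extensions. Then every field `L` with `F ⊆ L ⊆ F E`
has a free profinite absolute Galois group of countable rank; in particular every finite group is a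
Galois group over `L`.

Moreover `F` is linearly disjoint from all prosolvable extensions of `K`.  So the absolute Galois
groups of `ℚ`, of `ℚ^ab` (conjectured to be free by Shafarevich), of the maximal prosolvable
extension of `ℚ` and of all Galois extensions of `ℚ` between have free closed normal subgroups with
the same two-generated quotient `∏ A_(n i)`.

The degrees `n i` can be taken from any set `D` of integers such that every positive integer has a
positive multiple `a` for which `D` contains infinitely many odd multiples of `a`.

Method.  The library solves embedding problems `B → Gal(N/K)` over `K` after an alternating fibre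
power: there are surjections `g` of the absolute Galois group of `K` to the groups of all
`(b_1, ..., b_n; σ)`, the `b_i ∈ B` having the same image, `σ ∈ A_n`.  A sequence of such solutions
(all embedding problems, each infinitely often) defines `F`, the fixed field of all the kernels of
the `σ`-components.  Over `L` a component `b_1` is then a homomorphism; it is surjective since
commutators of elements `(c, 1, ..., 1; 1)` with elements of `R` which move `1`, `R` the absolute
Galois group of the compositum of `E` with all but one of the alternating extensions, are in the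
absolute Galois group of `L`.  If the absolute Galois group of `E` is not projective, an embedding
problem which is not solvable over `E` is added to the given one; so the alternating extension used
is not contained in `E`.
-/

set_option autoImplicit false

open Topology Filter Nfff32c05

namespace Pool.Agent.Results.MP_dadaab_nt.FreeOverComposita

/-- `K` is Hilbertian: every monic irreducible `f ∈ K[T][X]` which is separable over `K(T)` has an
irreducible specialization `f(a, X)` with `g(a) ≠ 0`, for every nonzero polynomial `g`. -/
def IsHilbertian (K : Type) [Field K] : Prop :=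
  ∀ f : Polynomial (Polynomial K), f.Monic → Irreducible f →
    (f.map (algebraMap (Polynomial K) (FractionRing (Polynomial K)))).Separable →
    ∀ g : Polynomial K, g ≠ 0 →
      ∃ a : K, g.eval a ≠ 0 ∧ Irreducible (f.map (Polynomial.evalRingHom a))

/-- Every positive integer `m` has a positive multiple `a` such that `D` contains infinitely many
odd multiples `a (2 k + 1)` of `a`. -/
def IsRich (D : Set ℕ) : Prop :=
  ∀ m : ℕ, 0 < m → ∃ a : ℕ, 0 < a ∧ m ∣ a ∧ {k : ℕ | a * (2 * k + 1) ∈ D}.Infinite

/-- The topological group `P` is topologically generated by two elements. -/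
def TwoGenerated (P : Type) [Group P] [TopologicalSpace P] [IsTopologicalGroup P] : Prop :=
  ∃ a b : P, (Subgroup.closure {a, b}).topologicalClosure = ⊤

/-- The topological group `G` is the free profinite group of countable rank: it is profinite and
there is a sequence `x i` in `G` which converges to `1` such that for every profinite group `A` and
every sequence `a i` in `A` which converges to `1` there is exactly one continuous homomorphism
`φ : G → A` with `φ (x i) = a i` for all `i`. -/
def IsFreeProfinite (G : Type) [Group G] [TopologicalSpace G] : Prop :=
  (IsTopologicalGroup G ∧ CompactSpace G ∧ T2Space G ∧ TotallyDisconnectedSpace G) ∧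
  ∃ x : ℕ → G, Tendsto x cofinite (𝓝 1) ∧
    ∀ (A : Type) [Group A] [TopologicalSpace A] [IsTopologicalGroup A] [CompactSpace A]
      [T2Space A] [TotallyDisconnectedSpace A] (a : ℕ → A), Tendsto a cofinite (𝓝 1) →
      ∃! φ : G →ₜ* A, ∀ i, φ (x i) = a i

/-- The profinite group `G` is projective: for all finite groups `Γ` and `B`, every homomorphism
`q : G → Γ` with open kernel and every epimorphism `α : B → Γ` there is a homomorphism `ψ : G → B`
with open kernel such that `α ∘ ψ = q`. -/
def IsProjective (G : Type) [Group G] [TopologicalSpace G] : Prop :=
  ∀ (Γ B : Type) [Group Γ] [Finite Γ] [Group B] [Finite B] (q : G →* Γ),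
    IsOpen (q.ker : Set G) → ∀ α : B →* Γ, Function.Surjective α →
    ∃ ψ : G →* B, IsOpen (ψ.ker : Set G) ∧ ∀ x, α (ψ x) = q x

section

variable {K : Type} [Field K]

/-- `F / K` is a Galois extension with group `∏ A_(n i)` (with open coordinate kernels), and this
group is topologically generated by two elements. -/
def IsAltProduct (n : ℕ → ℕ) (F : IntermediateField K (AlgebraicClosure K)) : Prop :=
  IsGalois K F ∧ TwoGenerated (F ≃ₐ[K] F) ∧
    ∃ e : (F ≃ₐ[K] F) ≃* ∀ i, alternatingGroup (Fin (n i)),
      ∀ i, IsOpen {σ : F ≃ₐ[K] F | e σ i = 1}

/-- `M / K` is a finite Galois extension with group `A_d`. -/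
def IsAlternating (d : ℕ) (M : IntermediateField K (AlgebraicClosure K)) : Prop :=
  FiniteDimensional K M ∧ IsGalois K M ∧ Nonempty ((M ≃ₐ[K] M) ≃* alternatingGroup (Fin d))

/-- Only finitely many groups `A_d` with `d ≥ 5` are Galois groups of Galois extensions of `K` which
are contained in `E`. -/
def FewAlternating (E : IntermediateField K (AlgebraicClosure K)) : Prop :=
  {d : ℕ | 5 ≤ d ∧ ∃ M, M ≤ E ∧ IsAlternating d M}.Finite

/-- All finite Galois extensions of `K` contained in `E` have solvable Galois groups. -/
def IsProsolvable (E : IntermediateField K (AlgebraicClosure K)) : Prop :=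
  ∀ M : IntermediateField K (AlgebraicClosure K), M ≤ E → FiniteDimensional K M →
    IsGalois K M → Group.IsSolvable (M ≃ₐ[K] M)

/-- `E / K` is a Galois extension, finite or infinite, with few alternating subextensions or with a
nonprojective absolute Galois group. -/
def IsGood (E : IntermediateField K (AlgebraicClosure K)) : Prop :=
  IsGalois K E ∧ (FewAlternating E ∨ ¬ IsProjective (AlgebraicClosure K ≃ₐ[E] AlgebraicClosure K))

/-- `L` is a field between `F` and the compositum of `F` and the members of `T`. -/
def IsBetween (F : IntermediateField K (AlgebraicClosure K))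
    (T : Finset (IntermediateField K (AlgebraicClosure K)))
    (L : IntermediateField K (AlgebraicClosure K)) : Prop := F ≤ L ∧ L ≤ F ⊔ T.sup id

/-- The absolute Galois group of `L` is the free profinite group of countable rank, and all finite
groups are Galois groups over `L`. -/
def HasFreeGroup (L : IntermediateField K (AlgebraicClosure K)) : Prop :=
  IsFreeProfinite (AlgebraicClosure K ≃ₐ[L] AlgebraicClosure K) ∧
    ∀ (G : Type) [Group G] [Finite G], IsRealizable L G

/-- Prosolvable extensions contain no alternating extensions. -/
theorem not_alternating {E : IntermediateField K (AlgebraicClosure K)} (hE : IsProsolvable E)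
    (d : ℕ) (hd : 5 ≤ d) (M : IntermediateField K (AlgebraicClosure K)) (hM : M ≤ E)
    (h : Pool.Agent.H418.FA.AltExt d M) : False := by
  have h1 := hE M hM h.fin h.gal
  obtain ⟨e⟩ := h.iso
  have h2 : Group.IsSolvable (alternatingGroup (Fin d)) :=
    Group.isSolvable_of_surjective (f := e.toMonoidHom) e.surjective
  have h3 := Pool.Agent.H418.FA.altSimple d hd
  obtain ⟨a, b, hab⟩ := Pool.Agent.H418.FA.altNoncomm d hd
  exact hab (IsSimpleGroup.comm_iff_isSolvable.2 h2 a b)

/-- Prosolvable extensions are good. -/
theorem good_of_prosolvable {E : IntermediateField K (AlgebraicClosure K)} (hg : IsGalois K E)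
    (hE : IsProsolvable E) : IsGood E := by
  have h8 : {d : ℕ | 5 ≤ d ∧ ∃ M : IntermediateField K (AlgebraicClosure K), M ≤ E ∧
      IsAlternating d M} = ∅ := by
    rw [Set.eq_empty_iff_forall_notMem]
    rintro d ⟨hd, M, hM, h9, h10, h11⟩
    exact not_alternating hE d hd M hM ⟨h9, h10, h11⟩
  refine ⟨hg, Or.inl ?_⟩
  change Set.Finite {d : ℕ | 5 ≤ d ∧ ∃ M : IntermediateField K (AlgebraicClosure K), M ≤ E ∧
      IsAlternating d M}
  rw [h8]
  exact Set.finite_empty

/-- Galois extensions with a real embedding are good. -/
theorem good_of_real [CharZero K] {E : IntermediateField K (AlgebraicClosure K)}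
    (hg : IsGalois K E) (hE : Nonempty (E →+* ℝ)) : IsGood E :=
  ⟨hg, Or.inr (Pool.Agent.H418.FA.not_weakAll_of_real hE)⟩

end

/-- There is a Galois extension `F / K` with group `∏ A_(n i)` such that all fields between `F` and
the composita of `F` with finitely many good extensions of `K` have free absolute Galois groups. -/
theorem result (K : Type) [Field K] [CharZero K] [Countable K]
    (hK : NumberField K ∨ IsHilbertian K) (D : Set ℕ) (hD : IsRich D) :
    ∃ (n : ℕ → ℕ) (F : IntermediateField K (AlgebraicClosure K)),
      StrictMono n ∧ (∀ i, n i ∈ D ∧ 5 ≤ n i) ∧ IsAltProduct n F ∧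
      (∀ E : IntermediateField K (AlgebraicClosure K), IsGalois K E → IsProsolvable E →
        F ⊓ E = ⊥ ∧ IsGood E) ∧
      (∀ E : IntermediateField K (AlgebraicClosure K), IsGalois K E → Nonempty (E →+* ℝ) →
        IsGood E) ∧
      ∀ (T : Finset (IntermediateField K (AlgebraicClosure K)))
        (L : IntermediateField K (AlgebraicClosure K)),
        (∀ E ∈ T, IsGood E) → IsBetween F T L → HasFreeGroup L := by
  have hK' : Pool.Agent.H391R2.T4.HilbField K := by
    rcases hK with hK | hK
    · exact Pool.Agent.H391R2.T4.hilb_numberField K
    · exact hK
  have hcΩ : Countable (AlgebraicClosure K) := by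
    have h3 := Algebra.IsAlgebraic.cardinalMk_le_max K (AlgebraicClosure K)
    rw [← Cardinal.mk_le_aleph0_iff]
    exact h3.trans (max_le (Cardinal.mk_le_aleph0_iff.2 inferInstance) le_rfl)
  obtain ⟨n, F, e, h1, h2, h3, h4, ⟨a, b, hab⟩, h6, h7⟩ :=
    Pool.Agent.H418.FA.exists_field3 K (AlgebraicClosure K) hK' D hD
  refine ⟨n, F, h1, h2, ⟨h3, ⟨a, b, hab⟩, e, h4⟩, fun E hE hs => ⟨?_, good_of_prosolvable hE hs⟩,
    fun E hE hr => good_of_real hE hr, fun T L hT hL => ?_⟩
  · exact h6 E hE fun d hd M hM => not_alternating hs d hd M hM
  · have h8 := h7 T L (fun E hE => by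
      obtain ⟨hg, h8 | h8⟩ := hT E hE
      · refine ⟨hg, Or.inl (Set.Finite.subset h8 ?_)⟩
        rintro d ⟨hd, M, hM, h9⟩
        exact ⟨hd, M, hM, h9.fin, h9.gal, h9.iso⟩
      · exact ⟨hg, Or.inr h8⟩) hL.1 hL.2
    have h9 : Pool.Agent.H418.FA.SolvesAllEP L := Pool.Agent.H418.FA.solvesAllEP_of h8
    obtain ⟨x, hx1, hx2⟩ := Pool.Agent.H418.FA.free_of_solvesAll _ h8
    exact ⟨⟨⟨inferInstance, inferInstance, inferInstance, inferInstance⟩, x, hx1, hx2⟩,
      fun G _ _ => h9.realizable G⟩

end Pool.Agent.Results.MP_dadaab_nt.FreeOverComposita
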