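import Mathlib
import Pool.Prelude.Def_F_b1b78ff3
import Pool.Agent.H418.FA.Just
import Pool.Agent.H418.FA.Fin

/-!
# A free normal subgroup of the absolute Galois group with a hereditarily just infinite quotient

Let `K` be a number field, or any countable Hilbertian field of characteristic zero (for example
`K = ℚ`).  There is an infinite Galois extension `M / K` such that

* `M` is the union of a chain `K = F 0 ⊂ F 1 ⊂ F 2 ⊂ ...` of finite Galois extensions of `K`, and
  `Gal(F (k + 1) / K)` is the regular wreath product of a simple alternating group `A_(n k)` by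
  `Gal(F k / K)`;
* the `F k` are the only Galois extensions of `K` in `M` besides `M` itself;
* `Gal(M / K)` is hereditarily just infinite: if `E / K` is a finite subextension of `M / K` then
  `M` is the only infinite Galois extension of `E` in `M`;
* `Gal(M / K)` is topologically generated by two elements, and `M / K` has only finitely many
  subextensions of each degree;
* every finite group is a Galois group over `M`, and the absolute Galois group of `M` is the free
  profinite group of countable rank.

So the absolute Galois group of `K` has a closed normal subgroup which is a free profinite group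
and which is maximal among the closed normal subgroups of infinite index.
-/

set_option autoImplicit false

open Topology Filter Nfff32c05

namespace Pool.Agent.Results.MP_dadaab_nt.FreeOverJustInfinite

/-- `K` is Hilbertian: every monic irreducible `f ∈ K[T][X]` which is separable over `K(T)` has an
irreducible specialization `f(a, X)` with `g(a) ≠ 0`, for every nonzero polynomial `g`. -/
def IsHilbertian (K : Type) [Field K] : Prop :=
  ∀ f : Polynomial (Polynomial K), f.Monic → Irreducible f →
    (f.map (algebraMap (Polynomial K) (FractionRing (Polynomial K)))).Separable →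
    ∀ g : Polynomial K, g ≠ 0 →
      ∃ a : K, g.eval a ≠ 0 ∧ Irreducible (f.map (Polynomial.evalRingHom a))

/-- Every positive integer `m` has a positive multiple `a` such that `D` contains infinitely many
odd multiples `a (2 k + 1)` of `a`. -/
def IsRich (D : Set ℕ) : Prop :=
  ∀ m : ℕ, 0 < m → ∃ a : ℕ, 0 < a ∧ m ∣ a ∧ {k : ℕ | a * (2 * k + 1) ∈ D}.Infinite

/-- The topological group `P` is topologically generated by two elements. -/
def TwoGenerated (P : Type) [Group P] [TopologicalSpace P] [IsTopologicalGroup P] : Prop :=
  ∃ a b : P, (Subgroup.closure {a, b}).topologicalClosure = ⊤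

/-- The topological group `G` is the free profinite group of countable rank: it is profinite and
there is a sequence `x i` in `G` which converges to `1` such that for every profinite group `A` and
every sequence `a i` in `A` which converges to `1` there is exactly one continuous homomorphism
`φ : G → A` with `φ (x i) = a i` for all `i`. -/
def IsFreeProfinite (G : Type) [Group G] [TopologicalSpace G] : Prop :=
  (IsTopologicalGroup G ∧ CompactSpace G ∧ T2Space G ∧ TotallyDisconnectedSpace G) ∧
  ∃ x : ℕ → G, Tendsto x cofinite (𝓝 1) ∧
    ∀ (A : Type) [Group A] [TopologicalSpace A] [IsTopologicalGroup A] [CompactSpace A]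
      [T2Space A] [TotallyDisconnectedSpace A] (a : ℕ → A), Tendsto a cofinite (𝓝 1) →
      ∃! φ : G →ₜ* A, ∀ i, φ (x i) = a i

/-- `F` is a strictly increasing chain of finite Galois extensions of `K` which starts with `K`,
and `Gal(F (k + 1) / K)` is the regular wreath product of the alternating group of degree `n k` by
`Gal(F k / K)`. -/
def IsWreathTower {K Ω : Type} [Field K] [Field Ω] [Algebra K Ω] (n : ℕ → ℕ)
    (F : ℕ → IntermediateField K Ω) : Prop :=
  F 0 = ⊥ ∧ StrictMono F ∧ ∀ k, FiniteDimensional K (F k) ∧ IsGalois K (F k) ∧
    Nonempty ((F (k + 1) ≃ₐ[K] F (k + 1)) ≃*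
      RegularWreathProduct (alternatingGroup (Fin (n k))) (F k ≃ₐ[K] F k))

/-- Let `E / K` be a finite subextension of `M / K` and let `E' / E` be a Galois extension with
`E' ≤ M`.  Then `E' = M` or `E' / E` is finite. -/
def IsHereditarilyJustInfinite {K Ω : Type} [Field K] [Field Ω] [Algebra K Ω]
    (M : IntermediateField K Ω) : Prop :=
  ∀ (E : IntermediateField K Ω) (E' : IntermediateField E Ω), FiniteDimensional K E →
    E'.restrictScalars K ≤ M → IsGalois E E' →
    E'.restrictScalars K = M ∨ FiniteDimensional E E'

/-- There is an infinite Galois extension of `K` whose group is hereditarily just infinite and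
topologically generated by two elements, whose Galois subextensions form a chain, and which has a
free absolute Galois group. -/
theorem result (K : Type) [Field K] [CharZero K] [Countable K]
    (hK : NumberField K ∨ IsHilbertian K) (D : Set ℕ) (hD : IsRich D) :
    ∃ (n : ℕ → ℕ) (F : ℕ → IntermediateField K (AlgebraicClosure K))
      (M : IntermediateField K (AlgebraicClosure K)),
      StrictMono n ∧ (∀ k, n k ∈ D ∧ 5 ≤ n k) ∧ IsWreathTower n F ∧
      M = ⨆ k, F k ∧ IsGalois K M ∧
      (∀ E : IntermediateField K (AlgebraicClosure K), E ≤ M → IsGalois K E →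
        E = M ∨ ∃ k, E = F k) ∧
      IsHereditarilyJustInfinite M ∧ TwoGenerated (M ≃ₐ[K] M) ∧
      (∀ d : ℕ, {E : IntermediateField K M |
        FiniteDimensional K E ∧ Module.finrank K E = d}.Finite) ∧
      (∀ (G : Type) [Group G] [Finite G], IsRealizable M G) ∧
      IsFreeProfinite (AlgebraicClosure K ≃ₐ[M] AlgebraicClosure K) := by
  have hK' : Pool.Agent.H391R2.T4.HilbField K := by
    rcases hK with hK | hK
    · exact Pool.Agent.H391R2.T4.hilb_numberField K
    · exact hK
  have hcΩ : Countable (AlgebraicClosure K) := by
    have h3 := Algebra.IsAlgebraic.cardinalMk_le_max K (AlgebraicClosure K)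
    rw [← Cardinal.mk_le_aleph0_iff]
    exact h3.trans (max_le (Cardinal.mk_le_aleph0_iff.2 inferInstance) le_rfl)
  obtain ⟨n, F, M, h1, h2, h3, h4, h5, h6, h7, ⟨a, b, hab⟩, h9, h10, h11⟩ :=
    Pool.Agent.H418.FA.exists_field_ji K (AlgebraicClosure K) hK' D hD
  have h12 : Pool.Agent.H418.FA.SolvesAllEP M := Pool.Agent.H418.FA.solvesAllEP_of h11
  obtain ⟨x, hx1, hx2⟩ := Pool.Agent.H418.FA.free_of_solvesAll _ h11
  exact ⟨n, F, M, h1, h2, ⟨h3, h4, h7⟩, h5, h6, h9, h10, ⟨a, b, hab⟩,
    Pool.Agent.H418.FA.finite_subfields a b hab, fun G _ _ => h12.realizable G,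
    ⟨inferInstance, inferInstance, inferInstance, inferInstance⟩, x, hx1, hx2⟩

end Pool.Agent.Results.MP_dadaab_nt.FreeOverJustInfinite
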