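import Mathlib
import Pool.Prelude.Def_F_b1b78ff3
import Pool.Agent.H418.FA.Lat4
import Pool.Agent.H418.FA.Real

/-!
# Absolute Galois groups which are products of free normal subgroups

Let `K` be a number field, or any countable Hilbertian field of characteristic zero (for example
`K = ℚ`).  Call a Galois extension `E / K`, finite or infinite, *good* if only finitely many
alternating groups `A_d`, `d ≥ 5`, are Galois groups of subextensions of `E / K` (for example if
`E / K` is prosolvable), or if the absolute Galois group of `E` is not projective (for example if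
`E` has a real embedding).

**Theorem.** Let `E` be a compositum of finitely many good extensions of `K`, for example `K`
itself, or the maximal abelian or maximal prosolvable extension of `K`, or the field of totally real
algebraic numbers. Then the absolute Galois group `G` of `E` has closed normal subgroups
`N 0, N 1, ...` such that for all `j ≠ k`

* `N j` is a free profinite group of countable rank,
* `G = N j * N k`, and `N j ∩ N k` is a free profinite group of countable rank.

(So `G` is the quotient of the semidirect product of two free profinite groups of countable rank by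
a closed normal subgroup which is again free of countable rank.)  In terms of fields: `E` is the
intersection of any two of infinitely many Galois extensions of `E`, over which, and over the
composita of which, the inverse Galois problem has a positive answer.

For `E = K` there is more precise information: to every set `J` of natural numbers there is attached
a Galois extension `F J` of `K`, with `F ∅ = K`, such that unions correspond to composita,
intersections to intersections of fields and to products of Galois groups; `Gal(F J / K)` is a
product of simple alternating groups of different degrees, topologically generated by two elements;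
and the absolute Galois group of `F J` is free of countable rank for all `J ≠ ∅`.
-/

set_option autoImplicit false

open Topology Filter Nfff32c05

namespace Pool.Agent.Results.MP_dadaab_nt.ProductOfTwoFree

/-- `K` is Hilbertian: every monic irreducible `f ∈ K[T][X]` which is separable over `K(T)` has an
irreducible specialization `f(a, X)` with `g(a) ≠ 0`, for every nonzero polynomial `g`. -/
def IsHilbertian (K : Type) [Field K] : Prop :=
  ∀ f : Polynomial (Polynomial K), f.Monic → Irreducible f →
    (f.map (algebraMap (Polynomial K) (FractionRing (Polynomial K)))).Separable →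
    ∀ g : Polynomial K, g ≠ 0 →
      ∃ a : K, g.eval a ≠ 0 ∧ Irreducible (f.map (Polynomial.evalRingHom a))

/-- Every positive integer `m` has a positive multiple `a` such that `D` contains infinitely many
odd multiples `a (2 k + 1)` of `a`. -/
def IsRich (D : Set ℕ) : Prop :=
  ∀ m : ℕ, 0 < m → ∃ a : ℕ, 0 < a ∧ m ∣ a ∧ {k : ℕ | a * (2 * k + 1) ∈ D}.Infinite

/-- The topological group `P` is topologically generated by two elements. -/
def TwoGenerated (P : Type) [Group P] [TopologicalSpace P] [IsTopologicalGroup P] : Prop :=
  ∃ a b : P, (Subgroup.closure {a, b}).topologicalClosure = ⊤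

/-- The topological group `G` is the free profinite group of countable rank: it is profinite and
there is a sequence `x i` in `G` which converges to `1` such that for every profinite group `A` and
every sequence `a i` in `A` which converges to `1` there is exactly one continuous homomorphism
`φ : G → A` with `φ (x i) = a i` for all `i`. -/
def IsFreeProfinite (G : Type) [Group G] [TopologicalSpace G] : Prop :=
  (IsTopologicalGroup G ∧ CompactSpace G ∧ T2Space G ∧ TotallyDisconnectedSpace G) ∧
  ∃ x : ℕ → G, Tendsto x cofinite (𝓝 1) ∧
    ∀ (A : Type) [Group A] [TopologicalSpace A] [IsTopologicalGroup A] [CompactSpace A]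
      [T2Space A] [TotallyDisconnectedSpace A] (a : ℕ → A), Tendsto a cofinite (𝓝 1) →
      ∃! φ : G →ₜ* A, ∀ i, φ (x i) = a i

/-- The profinite group `G` is projective: for all finite groups `Γ` and `B`, every homomorphism
`q : G → Γ` with open kernel and every epimorphism `α : B → Γ` there is a homomorphism `ψ : G → B`
with open kernel such that `α ∘ ψ = q`. -/
def IsProjective (G : Type) [Group G] [TopologicalSpace G] : Prop :=
  ∀ (Γ B : Type) [Group Γ] [Finite Γ] [Group B] [Finite B] (q : G →* Γ),
    IsOpen (q.ker : Set G) → ∀ α : B →* Γ, Function.Surjective α →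
    ∃ ψ : G →* B, IsOpen (ψ.ker : Set G) ∧ ∀ x, α (ψ x) = q x

/-- The topological group `G` has closed normal subgroups `N 0, N 1, ...` which are free profinite
groups of countable rank, and `G = N j * N k` and `N j ∩ N k` is free profinite of countable rank
for all `j ≠ k`. -/
def HasFreeSequence (G : Type) [Group G] [TopologicalSpace G] : Prop :=
  ∃ N : ℕ → Subgroup G,
    (∀ j, (N j).Normal ∧ IsClosed (N j : Set G) ∧ IsFreeProfinite (N j)) ∧
    ∀ j k, j ≠ k → (∀ g : G, ∃ x ∈ N j, ∃ y ∈ N k, g = x * y) ∧
      IsFreeProfinite (N j ⊓ N k : Subgroup G)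

section

variable {K : Type} [Field K]

/-- `M / K` is a finite Galois extension with group `A_d`. -/
def IsAlternating (d : ℕ) (M : IntermediateField K (AlgebraicClosure K)) : Prop :=
  FiniteDimensional K M ∧ IsGalois K M ∧ Nonempty ((M ≃ₐ[K] M) ≃* alternatingGroup (Fin d))

/-- Only finitely many groups `A_d` with `d ≥ 5` are Galois groups of Galois extensions of `K` which
are contained in `E`. -/
def FewAlternating (E : IntermediateField K (AlgebraicClosure K)) : Prop :=
  {d : ℕ | 5 ≤ d ∧ ∃ M, M ≤ E ∧ IsAlternating d M}.Finite

/-- All finite Galois extensions of `K` contained in `E` have solvable Galois groups. -/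
def IsProsolvable (E : IntermediateField K (AlgebraicClosure K)) : Prop :=
  ∀ M : IntermediateField K (AlgebraicClosure K), M ≤ E → FiniteDimensional K M →
    IsGalois K M → Group.IsSolvable (M ≃ₐ[K] M)

/-- `E / K` is a Galois extension, finite or infinite, with few alternating subextensions or with a
nonprojective absolute Galois group. -/
def IsGood (E : IntermediateField K (AlgebraicClosure K)) : Prop :=
  IsGalois K E ∧ (FewAlternating E ∨ ¬ IsProjective (AlgebraicClosure K ≃ₐ[E] AlgebraicClosure K))

/-- Prosolvable extensions contain no alternating extensions. -/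
theorem not_alternating {E : IntermediateField K (AlgebraicClosure K)} (hE : IsProsolvable E)
    (d : ℕ) (hd : 5 ≤ d) (M : IntermediateField K (AlgebraicClosure K)) (hM : M ≤ E)
    (h : Pool.Agent.H418.FA.AltExt d M) : False := by
  have h1 := hE M hM h.fin h.gal
  obtain ⟨e⟩ := h.iso
  have h2 : Group.IsSolvable (alternatingGroup (Fin d)) :=
    Group.isSolvable_of_surjective (f := e.toMonoidHom) e.surjective
  have h3 := Pool.Agent.H418.FA.altSimple d hd
  obtain ⟨a, b, hab⟩ := Pool.Agent.H418.FA.altNoncomm d hd
  exact hab (IsSimpleGroup.comm_iff_isSolvable.2 h2 a b)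

/-- Prosolvable extensions are good. -/
theorem good_of_prosolvable {E : IntermediateField K (AlgebraicClosure K)} (hg : IsGalois K E)
    (hE : IsProsolvable E) : IsGood E := by
  have h8 : {d : ℕ | 5 ≤ d ∧ ∃ M : IntermediateField K (AlgebraicClosure K), M ≤ E ∧
      IsAlternating d M} = ∅ := by
    rw [Set.eq_empty_iff_forall_notMem]
    rintro d ⟨hd, M, hM, h9, h10, h11⟩
    exact not_alternating hE d hd M hM ⟨h9, h10, h11⟩
  refine ⟨hg, Or.inl ?_⟩
  change Set.Finite {d : ℕ | 5 ≤ d ∧ ∃ M : IntermediateField K (AlgebraicClosure K), M ≤ E ∧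
      IsAlternating d M}
  rw [h8]
  exact Set.finite_empty

/-- Galois extensions with a real embedding are good. -/
theorem good_of_real [CharZero K] {E : IntermediateField K (AlgebraicClosure K)}
    (hg : IsGalois K E) (hE : Nonempty (E →+* ℝ)) : IsGood E :=
  ⟨hg, Or.inr (Pool.Agent.H418.FA.not_weakAll_of_real hE)⟩

end

/-- The absolute Galois group of every finite compositum of good extensions of `K` has a sequence of
free closed normal subgroups, any two of which generate it and have a free intersection; there is a
Boolean lattice of Galois extensions of `K` with free absolute Galois groups. -/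
theorem result (K : Type) [Field K] [CharZero K] [Countable K]
    (hK : NumberField K ∨ IsHilbertian K) (D : Set ℕ) (hD : IsRich D) :
    (∀ E : IntermediateField K (AlgebraicClosure K), IsGalois K E →
      (IsProsolvable E ∨ Nonempty (E →+* ℝ)) → IsGood E) ∧
    (∀ T : Finset (IntermediateField K (AlgebraicClosure K)), (∀ E ∈ T, IsGood E) →
      HasFreeSequence (AlgebraicClosure K ≃ₐ[(T.sup id : IntermediateField K (AlgebraicClosure K))]
        AlgebraicClosure K)) ∧
    ∃ (n c : ℕ → ℕ) (F : Set ℕ → IntermediateField K (AlgebraicClosure K)),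
      -- the degrees `n i` and their classes `c i`
      StrictMono n ∧ (∀ i, n i ∈ D ∧ 5 ≤ n i) ∧ (∀ j, {i | c i = j}.Infinite) ∧
      -- the lattice
      F ∅ = ⊥ ∧ (∀ J J', F (J ∪ J') = F J ⊔ F J') ∧ (∀ J J', F (J ∩ J') = F J ⊓ F J') ∧
      (∀ J J', (F J).fixingSubgroup ⊔ (F J').fixingSubgroup = (F (J ∩ J')).fixingSubgroup) ∧
      -- the Galois groups
      (∀ J, IsGalois K (F J) ∧ TwoGenerated (F J ≃ₐ[K] F J) ∧
        ∃ e : (F J ≃ₐ[K] F J) ≃* ∀ i : {i // c i ∈ J}, alternatingGroup (Fin (n i)),
          ∀ i, IsOpen {σ : F J ≃ₐ[K] F J | e σ i = 1}) ∧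
      -- the absolute Galois groups
      ∀ J, J.Nonempty → IsFreeProfinite (AlgebraicClosure K ≃ₐ[F J] AlgebraicClosure K) ∧
        ∀ (G : Type) [Group G] [Finite G], IsRealizable (F J) G := by
  have hK' : Pool.Agent.H391R2.T4.HilbField K := by
    rcases hK with hK | hK
    · exact Pool.Agent.H391R2.T4.hilb_numberField K
    · exact hK
  have hcΩ : Countable (AlgebraicClosure K) := by
    have h3 := Algebra.IsAlgebraic.cardinalMk_le_max K (AlgebraicClosure K)
    rw [← Cardinal.mk_le_aleph0_iff]
    exact h3.trans (max_le (Cardinal.mk_le_aleph0_iff.2 inferInstance) le_rfl)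
  refine ⟨fun E hE h => ?_, fun T hT => ?_, ?_⟩
  · rcases h with h | h
    · exact good_of_prosolvable hE h
    · exact good_of_real hE h
  · obtain ⟨N, hN1, hN2⟩ := Pool.Agent.H418.FA.seq_field K (AlgebraicClosure K) hK' T
      (fun E hE => by
        obtain ⟨hg, h8 | h8⟩ := hT E hE
        · refine ⟨hg, Or.inl (Set.Finite.subset h8 ?_)⟩
          rintro d ⟨hd, M, hM, h9⟩
          exact ⟨hd, M, hM, h9.fin, h9.gal, h9.iso⟩
        · exact ⟨hg, Or.inr h8⟩)
    refine ⟨N, fun j => ⟨(hN1 j).1, (hN1 j).2.1, ?_⟩, fun j k hjk => ⟨(hN2 j k hjk).1, ?_⟩⟩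
    · have hcomp : CompactSpace (N j) := isCompact_iff_compactSpace.1 (hN1 j).2.1.isCompact
      obtain ⟨x, hx1, hx2⟩ := (hN1 j).2.2
      exact ⟨⟨inferInstance, hcomp, inferInstance, inferInstance⟩, x, hx1, hx2⟩
    · have hcomp : CompactSpace (N j ⊓ N k : Subgroup (AlgebraicClosure K
          ≃ₐ[(T.sup id : IntermediateField K (AlgebraicClosure K))] AlgebraicClosure K)) :=
        isCompact_iff_compactSpace.1 ((hN1 j).2.1.inter (hN1 k).2.1).isCompact
      obtain ⟨x, hx1, hx2⟩ := (hN2 j k hjk).2
      exact ⟨⟨inferInstance, hcomp, inferInstance, inferInstance⟩, x, hx1, hx2⟩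
  obtain ⟨n, c, F, h1, h2, h3, h4, h5, h6, h7, h8, h9⟩ :=
    Pool.Agent.H418.FA.exists_lattice K (AlgebraicClosure K) hK' D hD
  · refine ⟨n, c, F, h1, h2, h3, h4, h5, h6, h7, fun J => ?_, fun J hJ => ?_⟩
    · obtain ⟨h10, ⟨a, b, hab⟩, e, he⟩ := h8 J
      exact ⟨h10, ⟨a, b, hab⟩, e, he⟩
    · obtain ⟨e, he, he'⟩ := Pool.Agent.H418.FA.exists_equiv (F J)
      have h10 := Pool.Agent.H418.FA.SolvesAll.of_equiv e he he' (h9 J hJ)
      have h12 : Pool.Agent.H418.FA.SolvesAllEP (F J) := Pool.Agent.H418.FA.solvesAllEP_of h10
      obtain ⟨x, hx1, hx2⟩ := Pool.Agent.H418.FA.free_of_solvesAll _ h10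
      exact ⟨⟨⟨inferInstance, inferInstance, inferInstance, inferInstance⟩, x, hx1, hx2⟩,
        fun G _ _ => h12.realizable G⟩

end Pool.Agent.Results.MP_dadaab_nt.ProductOfTwoFree
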